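import Mathlib

/-!
# Covering `Z_3 ^ n` by translates of the binary cube

`c n` is the least number of translates of `{0, 1} ^ n` that cover `Z_3 ^ n`.  We show
`(3 / 2) ^ n ≤ c n ≤ 2 (3 / 2) ^ n - 1` and that `c n / (3 / 2) ^ n` is nondecreasing and converges
to a limit `L` with `8 / 5 ≤ L ≤ 2`.

Idea of the upper bound.  A family `X` covers iff for every `w` some `x ∈ X` differs from `w` in
all coordinates.  Let `B` be the adjacency matrix over `F_2` of any graph on `n` vertices.  For
every set `Z` of vertices which induces a subgraph with all degrees even, let `x(Z)` be `0` on `Z`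
and `1` or `2` outside of `Z` according to the parity of the number of neighbours in `Z`.  Then
these words cover; this follows from the fact that the diagonal of a symmetric matrix over `F_2`
lies in its column space (the all ones problem).  Adding the vertices one by one and choosing the
neighbourhood of the new vertex by averaging gives a graph with at most `2 (3 / 2) ^ n - 1`
such sets `Z`.
-/

namespace Pool.Agent.Results.MP_07b806_co.OrderOfMagnitude

open Topology Filter

/-- The binary cube `{0, 1} ^ n` as a subset of `Z_3 ^ n`. -/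
def cube (n : ℕ) : Set (Fin n → ZMod 3) := {y | ∀ i, y i = 0 ∨ y i = 1}

/-- The translates `x + {0, 1} ^ n`, `x ∈ X`, cover `Z_3 ^ n`. -/
def Covers {n : ℕ} (X : Finset (Fin n → ZMod 3)) : Prop :=
  (⋃ x ∈ X, (fun y => x + y) '' cube n) = Set.univ

/-- The least number of translates of `{0, 1} ^ n` whose union is all of `Z_3 ^ n`. -/
noncomputable def c (n : ℕ) : ℕ :=
  sInf {k : ℕ | ∃ X : Finset (Fin n → ZMod 3), Covers X ∧ X.card = k}

/-! ### Reformulation -/

theorem covers_iff {n : ℕ} (X : Finset (Fin n → ZMod 3)) :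
    Covers X ↔ ∀ w : Fin n → ZMod 3, ∃ x ∈ X, ∀ i, x i ≠ w i := by
  have key : ∀ a b : ZMod 3, (b - a = 0 ∨ b - a = 1) ↔ a ≠ b + 1 := by decide
  unfold Covers
  rw [Set.eq_univ_iff_forall]
  constructor
  · intro h w
    have h1 := h (fun i => w i - 1)
    simp only [Set.mem_iUnion, Set.mem_image] at h1
    obtain ⟨x, hx, y, hy, hxy⟩ := h1
    refine ⟨x, hx, fun i => ?_⟩
    have h2 := hy i
    have h3 : y i = (w i - 1) - x i := by
      have := congrFun hxy i
      simp only [Pi.add_apply] at this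
      rw [← this]; ring
    rw [h3, key] at h2
    simpa using h2
  · intro h z
    obtain ⟨x, hx, hxw⟩ := h (fun i => z i + 1)
    simp only [Set.mem_iUnion, Set.mem_image]
    refine ⟨x, hx, fun i => z i - x i, fun i => ?_, ?_⟩
    · exact (key _ _).2 (hxw i)
    · funext i; simp

theorem covers_univ (n : ℕ) : Covers (Finset.univ : Finset (Fin n → ZMod 3)) := by
  rw [covers_iff]
  intro w
  refine ⟨fun i => w i + 1, Finset.mem_univ _, fun i => ?_⟩
  have : ∀ a : ZMod 3, a + 1 ≠ a := by decide
  exact this _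

theorem c_le {n : ℕ} {X : Finset (Fin n → ZMod 3)} (h : Covers X) : c n ≤ X.card :=
  Nat.sInf_le ⟨X, h, rfl⟩

theorem exists_optimal (n : ℕ) : ∃ X : Finset (Fin n → ZMod 3), Covers X ∧ X.card = c n := by
  have : c n ∈ {k : ℕ | ∃ X : Finset (Fin n → ZMod 3), Covers X ∧ X.card = k} :=
    Nat.sInf_mem ⟨_, _, covers_univ n, rfl⟩
  exact this

/-! ### Lower bound -/

theorem three_c_le (n : ℕ) : 3 * c n ≤ 2 * c (n + 1) := by
  classical
  obtain ⟨X, hX, hcard⟩ := exists_optimal (n + 1)
  rw [covers_iff] at hX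
  have h1 : ∀ a : ZMod 3, c n ≤ (X.filter (fun x => x 0 ≠ a)).card := by
    intro a
    have h2 : Covers ((X.filter (fun x => x 0 ≠ a)).image (fun x => Fin.tail x)) := by
      rw [covers_iff]
      intro w
      obtain ⟨x, hx, hxw⟩ := hX (Fin.cons a w)
      refine ⟨Fin.tail x, ?_, fun i => ?_⟩
      · apply Finset.mem_image_of_mem
        rw [Finset.mem_filter]
        refine ⟨hx, ?_⟩
        simpa using hxw 0
      · simpa [Fin.tail] using hxw i.succ
    exact (c_le h2).trans Finset.card_image_le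
  have h3 : ∑ a : ZMod 3, (X.filter (fun x => x 0 ≠ a)).card = 2 * X.card := by
    simp_rw [Finset.card_filter]
    rw [Finset.sum_comm]
    have : ∀ b : ZMod 3, ∑ a : ZMod 3, (if b ≠ a then 1 else 0) = 2 := by decide
    simp_rw [this]
    simp [mul_comm]
  have h4 : ∑ _a : ZMod 3, c n ≤ ∑ a : ZMod 3, (X.filter (fun x => x 0 ≠ a)).card :=
    Finset.sum_le_sum (fun a _ => h1 a)
  rw [h3, hcard] at h4
  simpa using h4

theorem one_le_c (n : ℕ) : 1 ≤ c n := by
  obtain ⟨X, hX, hcard⟩ := exists_optimal n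
  rw [covers_iff] at hX
  obtain ⟨x, hx, -⟩ := hX 0
  rw [← hcard]
  exact Finset.card_pos.2 ⟨x, hx⟩

/-! ### The diagonal of a symmetric matrix over `F_2` lies in its column space -/

theorem quad_eq {n : ℕ} (S : Matrix (Fin n) (Fin n) (ZMod 2)) (hS : ∀ i j, S i j = S j i)
    (v : Fin n → ZMod 2) : ∑ i, ∑ j, v i * S i j * v j = ∑ i, S i i * v i := by
  classical
  have h2 : ∀ a : ZMod 2, a * a = a := by decide
  have h0 : ∀ a : ZMod 2, a + a = 0 := by decide
  have h1 : ∑ p ∈ (Finset.univ : Finset (Fin n)).offDiag, v p.1 * S p.1 p.2 * v p.2 = 0 := by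
    refine Finset.sum_involution (fun p _ => p.swap) ?_ ?_ ?_ ?_
    · intro p _
      simp only [Prod.fst_swap, Prod.snd_swap]
      rw [hS p.2 p.1, show v p.2 * S p.1 p.2 * v p.1 = v p.1 * S p.1 p.2 * v p.2 by ring]
      exact h0 _
    · intro p hp _ h
      rw [Finset.mem_offDiag] at hp
      apply hp.2.2
      have := congrArg Prod.snd h
      simpa using this
    · intro p hp
      rw [Finset.mem_offDiag] at hp ⊢
      exact ⟨hp.2.1, hp.1, fun h => hp.2.2 h.symm⟩
    · intro p _
      exact Prod.swap_swap p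
  have h3 : ∑ p ∈ (Finset.univ : Finset (Fin n)).diag, v p.1 * S p.1 p.2 * v p.2
      = ∑ i, S i i * v i := by
    rw [Finset.sum_diag]
    refine Finset.sum_congr rfl fun i _ => ?_
    rw [show v i * S i i * v i = S i i * (v i * v i) by ring, h2]
  rw [← Finset.sum_product', ← Finset.diag_union_offDiag,
    Finset.sum_union (Finset.disjoint_diag_offDiag _), h1, h3, add_zero]

theorem diag_mem_range {n : ℕ} (S : Matrix (Fin n) (Fin n) (ZMod 2))
    (hS : ∀ i j, S i j = S j i) : ∃ v : Fin n → ZMod 2, ∀ i, ∑ j, S i j * v j = S i i := by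
  classical
  by_contra hcon
  push Not at hcon
  let φ : (Fin n → ZMod 2) →ₗ[ZMod 2] (Fin n → ZMod 2) := S.mulVecLin
  have hnot : (fun i => S i i) ∉ LinearMap.range φ := by
    rintro ⟨v, hv⟩
    obtain ⟨i, hi⟩ := hcon v
    apply hi
    have := congrFun hv i
    simpa [φ, Matrix.mulVec, dotProduct] using this
  obtain ⟨f, hf, hfr⟩ := Submodule.exists_dual_map_eq_bot_of_notMem hnot inferInstance
  have hf0 : ∀ v, f (φ v) = 0 := by
    intro v
    have h1 : f (φ v) ∈ (LinearMap.range φ).map f :=
      Submodule.mem_map_of_mem (LinearMap.mem_range_self φ v)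
    exact (Submodule.eq_bot_iff _).1 hfr _ h1
  set l : Fin n → ZMod 2 := fun i => f (Pi.single i 1) with hl
  have hfl : ∀ u : Fin n → ZMod 2, f u = ∑ i, l i * u i := by
    intro u
    conv_lhs => rw [pi_eq_sum_univ' u]
    rw [map_sum]
    refine Finset.sum_congr rfl fun i _ => ?_
    rw [map_smul, smul_eq_mul, mul_comm, hl]
  apply hf
  rw [hfl, ← hf0 l, hfl]
  have h1 := quad_eq S hS l
  rw [show ∑ i, l i * S i i = ∑ i, S i i * l i from
    Finset.sum_congr rfl fun i _ => mul_comm _ _, ← h1]
  refine Finset.sum_congr rfl fun i _ => ?_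
  simp only [φ, Matrix.mulVecLin_apply, Matrix.mulVec, dotProduct, Finset.mul_sum]
  exact Finset.sum_congr rfl fun j _ => by ring

/-! ### The code of a graph -/

/-- The (indicator vectors of) sets of vertices which induce a subgraph with even degrees. -/
def evenSets {n : ℕ} (B : Fin n → Fin n → ZMod 2) : Finset (Fin n → ZMod 2) :=
  Finset.univ.filter (fun z => ∀ j, z j = 1 → ∑ i, B j i * z i = 0)

/-- The codeword of a set of vertices. -/
def word {n : ℕ} (B : Fin n → Fin n → ZMod 2) (z : Fin n → ZMod 2) : Fin n → ZMod 3 :=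
  fun j => if z j = 1 then 0 else if ∑ i, B j i * z i = 0 then 1 else 2

theorem covers_word {n : ℕ} (B : Fin n → Fin n → ZMod 2) (hB : ∀ i j, B i j = B j i)
    (hB0 : ∀ i, B i i = 0) : Covers ((evenSets B).image (word B)) := by
  classical
  rw [covers_iff]
  intro w
  let S : Matrix (Fin n) (Fin n) (ZMod 2) := fun i j =>
    if w i = 0 ∨ w j = 0 then 0 else if i = j then (if w i = 1 then 1 else 0) else B i j
  have hS : ∀ i j, S i j = S j i := by
    intro i j
    by_cases h2 : i = j
    · rw [h2]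
    · have h2' : ¬ j = i := fun h => h2 h.symm
      simp only [S, if_neg h2, if_neg h2', hB i j, or_comm]
  obtain ⟨v, hv⟩ := diag_mem_range S hS
  set z : Fin n → ZMod 2 := fun i => if w i = 0 then 0 else v i with hz
  have hzv : ∀ j, w j ≠ 0 → ∑ i, B j i * z i + (if w j = 1 then z j else 0)
      = if w j = 1 then 1 else 0 := by
    intro j hj
    have h1 := hv j
    have h2 : S j j = if w j = 1 then 1 else 0 := by simp [S, hj]
    rw [h2] at h1
    rw [← h1]
    have h3 : ∀ i, S j i * v i = B j i * z i + (if i = j then (if w j = 1 then z j else 0) else 0) := by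
      intro i
      by_cases hi : w i = 0
      · have hij : i ≠ j := fun h => hj (h ▸ hi)
        simp [S, hz, hi, hij]
      · by_cases hij : i = j
        · subst hij
          simp only [S, hz, hi, or_self, if_false, if_true, hB0, zero_mul, zero_add]
          split_ifs <;> simp
        · have hij' : ¬ j = i := fun h => hij h.symm
          simp [S, hz, hi, hj, hij, hij']
    simp_rw [h3]
    rw [Finset.sum_add_distrib, Finset.sum_ite_eq' Finset.univ j]
    simp
  have d2 : ∀ a : ZMod 2, a = 0 ∨ a = 1 := by decide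
  refine ⟨word B z, Finset.mem_image_of_mem _ ?_, fun j => ?_⟩
  · simp only [evenSets, Finset.mem_filter, Finset.mem_univ, true_and]
    intro j hj
    have hwj : w j ≠ 0 := by
      intro h
      simp [hz, h] at hj
    have h1 := hzv j hwj
    rw [hj] at h1
    rcases d2 (∑ i, B j i * z i) with h | h
    · exact h
    · exfalso
      rw [h] at h1
      revert h1
      by_cases h3 : w j = 1
      · simp only [h3, if_true]; decide
      · simp only [h3, if_false]; decide
  · intro hcontra
    have d3 : ∀ a : ZMod 3, a = 0 ∨ a = 1 ∨ a = 2 := by decide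
    have e01 : (0 : ZMod 3) ≠ 1 := by decide
    have e02 : (0 : ZMod 3) ≠ 2 := by decide
    have e12 : (1 : ZMod 3) ≠ 2 := by decide
    unfold word at hcontra
    by_cases hwj : w j = 0
    · have hzj : z j = 0 := by simp [hz, hwj]
      rw [hwj, hzj] at hcontra
      simp only [zero_ne_one, if_false] at hcontra
      split_ifs at hcontra
      · exact e01 hcontra.symm
      · exact e02 hcontra.symm
    · have h1 := hzv j hwj
      by_cases hzj : z j = 1
      · rw [if_pos hzj] at hcontra
        exact hwj hcontra.symm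
      · have hzj0 : z j = 0 := (d2 (z j)).resolve_right hzj
        rw [if_neg hzj] at hcontra
        rw [hzj0] at h1
        by_cases hw1 : w j = 1
        · simp only [hw1, if_true, add_zero] at h1
          rw [h1, if_neg one_ne_zero, hw1] at hcontra
          exact e12 hcontra.symm
        · simp only [hw1, if_false, add_zero] at h1
          rw [h1, if_pos rfl] at hcontra
          exact hw1 hcontra.symm

theorem c_le_evenSets {n : ℕ} (B : Fin n → Fin n → ZMod 2) (hB : ∀ i j, B i j = B j i)
    (hB0 : ∀ i, B i i = 0) : c n ≤ (evenSets B).card :=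
  (c_le (covers_word B hB hB0)).trans Finset.card_image_le

/-! ### Averaging -/

/-- Add a new vertex `0` with neighbourhood `t`. -/
def addVertex {n : ℕ} (B : Fin n → Fin n → ZMod 2) (t : Fin n → ZMod 2) :
    Fin (n + 1) → Fin (n + 1) → ZMod 2 :=
  Fin.cons (Fin.cons 0 t) (fun i => Fin.cons (t i) (B i))

theorem addVertex_symm {n : ℕ} (B : Fin n → Fin n → ZMod 2) (hB : ∀ i j, B i j = B j i)
    (t : Fin n → ZMod 2) (i j : Fin (n + 1)) : addVertex B t i j = addVertex B t j i := by
  unfold addVertex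
  refine Fin.cases ?_ (fun i => ?_) i <;> refine Fin.cases ?_ (fun j => ?_) j <;>
    simp [hB]

theorem addVertex_diag {n : ℕ} (B : Fin n → Fin n → ZMod 2) (hB0 : ∀ i, B i i = 0)
    (t : Fin n → ZMod 2) (i : Fin (n + 1)) : addVertex B t i i = 0 := by
  unfold addVertex
  refine Fin.cases ?_ (fun i => ?_) i <;> simp [hB0]

theorem card_addVertex_le {n : ℕ} (B : Fin n → Fin n → ZMod 2) (t : Fin n → ZMod 2) :
    (evenSets (addVertex B t)).card ≤ (evenSets B).card +
      (Finset.univ.filter (fun z : Fin n → ZMod 2 => ∀ i, z i = 1 → t i = ∑ j, B i j * z j)).card := by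
  classical
  have hsub : evenSets (addVertex B t) ⊆ (evenSets B).image (fun z => (Fin.cons 0 z : Fin (n + 1) → ZMod 2)) ∪
      (Finset.univ.filter (fun z : Fin n → ZMod 2 => ∀ i, z i = 1 → t i = ∑ j, B i j * z j)).image
        (fun z => (Fin.cons 1 z : Fin (n + 1) → ZMod 2)) := by
    intro z hz
    simp only [evenSets, Finset.mem_filter, Finset.mem_univ, true_and] at hz
    have hz' : ∀ i : Fin n, z i.succ = 1 → t i * z 0 + ∑ j, B i j * z j.succ = 0 := by
      intro i hi
      have := hz i.succ hi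
      rw [Fin.sum_univ_succ] at this
      simpa [addVertex] using this
    have d2 : ∀ a : ZMod 2, a = 0 ∨ a = 1 := by decide
    have eq_of : ∀ a b : ZMod 2, a + b = 0 → a = b := by decide
    rw [Finset.mem_union]
    rcases d2 (z 0) with h0 | h0
    · left
      refine Finset.mem_image.2 ⟨Fin.tail z, ?_, ?_⟩
      · simp only [evenSets, Finset.mem_filter, Finset.mem_univ, true_and]
        intro i hi
        have := hz' i hi
        rw [h0, mul_zero, zero_add] at this
        exact this
      · rw [← h0]; exact Fin.cons_self_tail z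
    · right
      refine Finset.mem_image.2 ⟨Fin.tail z, ?_, ?_⟩
      · simp only [Finset.mem_filter, Finset.mem_univ, true_and]
        intro i hi
        have := hz' i hi
        rw [h0, mul_one] at this
        exact eq_of _ _ this
      · rw [← h0]; exact Fin.cons_self_tail z
  calc (evenSets (addVertex B t)).card ≤ _ := Finset.card_le_card hsub
    _ ≤ _ := Finset.card_union_le _ _
    _ ≤ _ := Nat.add_le_add Finset.card_image_le Finset.card_image_le

theorem sum_card {n : ℕ} (g : (Fin n → ZMod 2) → Fin n → ZMod 2) :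
    ∑ t : Fin n → ZMod 2,
      (Finset.univ.filter (fun z : Fin n → ZMod 2 => ∀ i, z i = 1 → t i = g z i)).card = 3 ^ n := by
  classical
  simp_rw [Finset.card_filter]
  rw [Finset.sum_comm]
  have h1 : ∀ z : Fin n → ZMod 2, ∑ t : Fin n → ZMod 2, (if ∀ i, z i = 1 → t i = g z i then 1 else 0)
      = ∏ i, (if z i = 1 then 1 else 2) := by
    intro z
    rw [← Finset.card_filter]
    have h2 : (Finset.univ.filter (fun t : Fin n → ZMod 2 => ∀ i, z i = 1 → t i = g z i))
        = Fintype.piFinset (fun i => if z i = 1 then {g z i} else Finset.univ) := by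
      ext t
      simp only [Finset.mem_filter, Finset.mem_univ, true_and, Fintype.mem_piFinset]
      refine forall_congr' fun i => ?_
      by_cases h : z i = 1
      · simp [h]
      · simp [h]
    rw [h2, Fintype.card_piFinset]
    refine Finset.prod_congr rfl fun i _ => ?_
    by_cases h : z i = 1
    · simp [h]
    · simp [h, ZMod.card]
  simp_rw [h1]
  have h3 := Finset.prod_univ_sum (R := ℕ) (fun _ : Fin n => (Finset.univ : Finset (ZMod 2)))
    (fun _ a => if a = 1 then 1 else 2)
  rw [Fintype.piFinset_univ] at h3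
  rw [← h3]
  have h4 : ∑ a : ZMod 2, (if a = 1 then 1 else 2) = 3 := by decide
  rw [Finset.prod_congr rfl (fun _ _ => h4)]
  simp

theorem exists_addVertex {n : ℕ} (B : Fin n → Fin n → ZMod 2) :
    ∃ t : Fin n → ZMod 2, ((evenSets (addVertex B t)).card : ℝ) ≤
      (evenSets B).card + (3 / 2 : ℝ) ^ n := by
  classical
  set F : (Fin n → ZMod 2) → ℕ := fun t =>
    (Finset.univ.filter (fun z : Fin n → ZMod 2 => ∀ i, z i = 1 → t i = ∑ j, B i j * z j)).card
    with hF
  have hsum : ∑ t, F t = 3 ^ n := sum_card (fun z i => ∑ j, B i j * z j)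
  have h1 : ∃ t ∈ (Finset.univ : Finset (Fin n → ZMod 2)), (F t : ℝ) ≤ (3 / 2 : ℝ) ^ n := by
    refine Finset.exists_le_of_sum_le ⟨0, Finset.mem_univ _⟩ ?_
    rw [← Nat.cast_sum, hsum, Finset.sum_const, Finset.card_univ, nsmul_eq_mul]
    have : Fintype.card (Fin n → ZMod 2) = 2 ^ n := by simp [ZMod.card]
    rw [this]
    push_cast
    rw [← mul_pow]
    norm_num
  obtain ⟨t, -, ht⟩ := h1
  refine ⟨t, ?_⟩
  have h2 := card_addVertex_le B t
  have h3 : ((evenSets (addVertex B t)).card : ℝ) ≤ (evenSets B).card + F t := by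
    exact_mod_cast h2
  linarith

theorem exists_graph (n : ℕ) : ∃ B : Fin n → Fin n → ZMod 2, (∀ i j, B i j = B j i) ∧
    (∀ i, B i i = 0) ∧ ((evenSets B).card : ℝ) ≤ 2 * (3 / 2 : ℝ) ^ n - 1 := by
  induction n with
  | zero =>
    refine ⟨fun _ _ => 0, fun _ _ => rfl, fun _ => rfl, ?_⟩
    have : (evenSets (fun _ _ : Fin 0 => (0 : ZMod 2))).card ≤ 1 := by
      refine (Finset.card_filter_le _ _).trans ?_
      simp
    have h : ((evenSets (fun _ _ : Fin 0 => (0 : ZMod 2))).card : ℝ) ≤ 1 := by exact_mod_cast this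
    linarith [pow_zero (3 / 2 : ℝ)]
  | succ n ih =>
    obtain ⟨B, hB, hB0, hcard⟩ := ih
    obtain ⟨t, ht⟩ := exists_addVertex B
    refine ⟨addVertex B t, addVertex_symm B hB t, addVertex_diag B hB0 t, ?_⟩
    rw [pow_succ]
    linarith

theorem c_upper (n : ℕ) : (c n : ℝ) ≤ 2 * (3 / 2 : ℝ) ^ n - 1 := by
  obtain ⟨B, hB, hB0, hcard⟩ := exists_graph n
  have h1 := c_le_evenSets B hB hB0
  have h2 : (c n : ℝ) ≤ (evenSets B).card := by exact_mod_cast h1
  linarith

theorem ratio_mono : Monotone (fun n : ℕ => (c n : ℝ) / (3 / 2 : ℝ) ^ n) := by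
  refine monotone_nat_of_le_succ fun n => ?_
  have h1 : (3 : ℝ) * c n ≤ 2 * c (n + 1) := by exact_mod_cast three_c_le n
  have hp : (0 : ℝ) < (3 / 2 : ℝ) ^ n := by positivity
  rw [div_le_div_iff₀ hp (by positivity), pow_succ]
  nlinarith

theorem c_lower (n : ℕ) : (3 / 2 : ℝ) ^ n ≤ c n := by
  induction n with
  | zero =>
    have : (1 : ℝ) ≤ c 0 := by exact_mod_cast one_le_c 0
    simpa using this
  | succ n ih =>
    have h1 : (3 : ℝ) * c n ≤ 2 * c (n + 1) := by exact_mod_cast three_c_le n
    rw [pow_succ]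
    linarith

theorem c_ten : 93 ≤ c 10 := by
  have h0 := one_le_c 0
  have h1 := three_c_le 0
  have h2 := three_c_le 1
  have h3 := three_c_le 2
  have h4 := three_c_le 3
  have h5 := three_c_le 4
  have h6 := three_c_le 5
  have h7 := three_c_le 6
  have h8 := three_c_le 7
  have h9 := three_c_le 8
  have h10 := three_c_le 9
  norm_num at h1 h2 h3 h4 h5 h6 h7 h8 h9 h10
  omega

/-- The order of magnitude of `c n` is `(3 / 2) ^ n`: for all `n` we have
`(3 / 2) ^ n ≤ c n ≤ 2 (3 / 2) ^ n - 1`, the ratio `c n / (3 / 2) ^ n` is nondecreasing in `n`, and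
it converges to a limit `L` with `8 / 5 ≤ L ≤ 2`. -/
theorem result :
    (∀ n : ℕ, (3 / 2 : ℝ) ^ n ≤ c n ∧ (c n : ℝ) ≤ 2 * (3 / 2 : ℝ) ^ n - 1) ∧
    Monotone (fun n : ℕ => (c n : ℝ) / (3 / 2 : ℝ) ^ n) ∧
    ∃ L : ℝ, 8 / 5 ≤ L ∧ L ≤ 2 ∧
      Tendsto (fun n : ℕ => (c n : ℝ) / (3 / 2 : ℝ) ^ n) atTop (𝓝 L) := by
  refine ⟨fun n => ⟨c_lower n, c_upper n⟩, ratio_mono, ?_⟩
  have hle : ∀ n : ℕ, (c n : ℝ) / (3 / 2 : ℝ) ^ n ≤ 2 := by
    intro n
    have hp : (0 : ℝ) < (3 / 2 : ℝ) ^ n := by positivity
    rw [div_le_iff₀ hp]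
    linarith [c_upper n]
  have hbdd : BddAbove (Set.range (fun n : ℕ => (c n : ℝ) / (3 / 2 : ℝ) ^ n)) :=
    ⟨2, by rintro _ ⟨n, rfl⟩; exact hle n⟩
  have hlim := tendsto_atTop_ciSup ratio_mono hbdd
  refine ⟨_, ?_, ?_, hlim⟩
  · refine le_trans ?_ (le_ciSup hbdd 10)
    have h1 : (93 : ℝ) ≤ c 10 := by exact_mod_cast c_ten
    rw [le_div_iff₀ (by positivity)]
    have h2 : (8 / 5 : ℝ) * (3 / 2 : ℝ) ^ 10 ≤ 93 := by norm_num
    linarith
  · exact ciSup_le hle

end Pool.Agent.Results.MP_07b806_co.OrderOfMagnitude
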